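import Pool.Agent.H10.BL.Stmts
import Pool.Agent.H71.BL.CTL

/-!
# BL: FTL, additive energy
-/

set_option autoImplicit false

namespace Pool.BL

open Finset Pool.Agent.H98.ABCR Pool.SHA Pool.RIC.H71R

namespace FTL14

theorem sgn2 (i : Fin 3) : ∃ α β : ℤ, (α = 1 ∨ α = -1) ∧ (β = 1 ∨ β = -1) ∧
    ∀ v : ℕ × ℕ, (coord v i : ℤ) = α * coord v (i + 1) + β * coord v (i + 2) := by
  fin_cases i
  · refine ⟨-1, 1, Or.inr rfl, Or.inl rfl, fun v => ?_⟩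
    show (v.1 : ℤ) = -1 * (v.2 : ℤ) + 1 * ((v.1 + v.2 : ℕ) : ℤ)
    push_cast
    ring
  · refine ⟨1, -1, Or.inl rfl, Or.inr rfl, fun v => ?_⟩
    show (v.2 : ℤ) = 1 * ((v.1 + v.2 : ℕ) : ℤ) + -1 * (v.1 : ℤ)
    push_cast
    ring
  · refine ⟨1, 1, Or.inl rfl, Or.inl rfl, fun v => ?_⟩
    show ((v.1 + v.2 : ℕ) : ℤ) = 1 * (v.1 : ℤ) + 1 * (v.2 : ℤ)
    push_cast
    ring

theorem prodcard {ι ι' : Type} [DecidableEq ι] [DecidableEq ι'] (A : Finset ι) (B : Finset ι')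
    (a : ι → ℤ) (b : ι' → ℤ) (S : Finset ℤ) (hS : ∀ x ∈ A, a x ∈ S) :
    ((A ×ˢ B).filter (fun z => a z.1 = b z.2)).card =
      ∑ m ∈ S, (A.filter (fun x => a x = m)).card * (B.filter (fun y => b y = m)).card := by
  rw [Finset.card_eq_sum_card_fiberwise (f := fun z => a z.1) (t := S)]
  · refine Finset.sum_congr rfl fun m _ => ?_
    rw [← Finset.card_product]
    congr 1
    ext z
    simp only [mem_filter, mem_product]
    constructor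
    · rintro ⟨⟨⟨h1, h2⟩, h3⟩, h4⟩
      exact ⟨⟨h1, h4⟩, ⟨h2, by rw [← h3, h4]⟩⟩
    · rintro ⟨⟨h1, h4⟩, ⟨h2, h5⟩⟩
      exact ⟨⟨⟨h1, h2⟩, by rw [h4, h5]⟩, h4⟩
  · intro z hz
    have hz' := Finset.mem_coe.1 hz
    simp only [mem_filter, mem_product] at hz'
    exact Finset.mem_coe.2 (hS _ hz'.1.1)

theorem cs2 {ι ι' : Type} [DecidableEq ι] [DecidableEq ι'] (A : Finset ι) (B : Finset ι')
    (a : ι → ℤ) (b : ι' → ℤ) :
    (((A ×ˢ B).filter (fun z => a z.1 = b z.2)).card : ℝ) ^ 2 ≤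
      (((A ×ˢ A).filter (fun z => a z.1 = a z.2)).card : ℝ) *
      (((B ×ˢ B).filter (fun z => b z.1 = b z.2)).card : ℝ) := by
  set S : Finset ℤ := A.image a ∪ B.image b with hS
  have hA : ∀ x ∈ A, a x ∈ S := fun x hx => by
    rw [hS]; exact mem_union_left _ (mem_image_of_mem _ hx)
  have hB : ∀ x ∈ B, b x ∈ S := fun x hx => by
    rw [hS]; exact mem_union_right _ (mem_image_of_mem _ hx)
  rw [prodcard A B a b S hA, prodcard A A a a S hA, prodcard B B b b S hB]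
  push_cast
  have h := Finset.sum_mul_sq_le_sq_mul_sq S
    (fun m => ((A.filter (fun x => a x = m)).card : ℝ))
    (fun m => ((B.filter (fun y => b y = m)).card : ℝ))
  refine h.trans (le_of_eq ?_)
  simp only [sq]

/-- the energy of differences of `e`-th powers -/
theorem ener (e N r : ℕ) (hr : 0 < r) (α : ℤ) (hα : α = 1 ∨ α = -1) :
    ((((Icc 1 N ×ˢ Icc 1 N) ×ˢ (Icc 1 N ×ˢ Icc 1 N)).filter
      (fun z : (ℕ × ℕ) × (ℕ × ℕ) => α * r * ((z.1.1 : ℤ) ^ e - (z.1.2 : ℤ) ^ e) =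
        α * r * ((z.2.1 : ℤ) ^ e - (z.2.2 : ℤ) ^ e))).card) ≤
    (((Icc 1 N ×ˢ Icc 1 N) ×ˢ (Icc 1 N ×ˢ Icc 1 N)).filter
      (fun z : (ℕ × ℕ) × (ℕ × ℕ) => z.1.1 ^ e + z.1.2 ^ e = z.2.1 ^ e + z.2.2 ^ e)).card := by
  refine Finset.card_le_card_of_injOn
    (fun z : (ℕ × ℕ) × (ℕ × ℕ) => ((z.1.1, z.2.2), (z.2.1, z.1.2))) ?_ ?_
  · intro z hz
    have hz' := Finset.mem_coe.1 hz
    simp only [mem_filter, mem_product] at hz'
    obtain ⟨⟨⟨h1, h2⟩, ⟨h3, h4⟩⟩, h5⟩ := hz'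
    refine Finset.mem_coe.2 ?_
    simp only [mem_filter, mem_product]
    refine ⟨⟨⟨h1, h4⟩, ⟨h3, h2⟩⟩, ?_⟩
    have hr' : (r : ℤ) ≠ 0 := by exact_mod_cast hr.ne'
    have hα' : α ≠ 0 := by rcases hα with h | h <;> simp [h]
    have h6 := mul_left_cancel₀ (mul_ne_zero hα' hr') h5
    have h7 : (z.1.1 : ℤ) ^ e + (z.2.2 : ℤ) ^ e = (z.2.1 : ℤ) ^ e + (z.1.2 : ℤ) ^ e := by
      linarith
    exact_mod_cast h7
  · intro z _ z' _ h
    simp only [Prod.mk.injEq] at h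
    obtain ⟨⟨h1, h2⟩, ⟨h3, h4⟩⟩ := h
    exact Prod.ext (Prod.ext h1 h4) (Prod.ext h3 h2)

/-- fixed cofactors -/
theorem fibrs {J : ℕ} {κ ε1 ε2 C1 C2 : ℝ} (hC1 : 1 ≤ C1) (hC2 : 1 ≤ C2) (hε2 : 0 < ε2)
    (hL : S_LAY)
    (hT : ∀ (X Y : ℝ) (T : Finset ℕ), 1 ≤ X → 1 ≤ Y →
      (∀ n ∈ T, 0 < n ∧ (n : ℝ) ≤ X ^ κ ∧ (rad n : ℝ) ≤ Y) → (T.card : ℝ) ≤ C1 * X ^ ε1 * Y)
    (hE : ∀ e N : ℕ, 2 ≤ e → e ≤ J → 1 ≤ N →
      ((((Icc 1 N ×ˢ Icc 1 N) ×ˢ (Icc 1 N ×ˢ Icc 1 N)).filter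
        (fun z : (ℕ × ℕ) × (ℕ × ℕ) => z.1.1 ^ e + z.1.2 ^ e = z.2.1 ^ e + z.2.2 ^ e)).card : ℝ) ≤
      C2 * (N : ℝ) ^ (2 + ε2))
    {X τ : ℝ} (hX : 1 ≤ X) (hτ : 0 ≤ τ) (i : Fin 3) {e f : ℕ} (he : e ∈ Icc 2 J)
    (hf : f ∈ Icc 2 J) (p : Fin 3 → ℕ → ℝ) (hp : ∀ l e, 0 ≤ p l e ∧ p l e ≤ 2) (r s : ℕ)
    (hr : 0 < r) (hs : 0 < s) (F : Finset (ℕ × ℕ))
    (hF : ∀ v ∈ F, IsTri v ∧ hh v ≤ κ * Real.log X ∧
      (∀ l, Prof J X τ (p l) (coord v l)) ∧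
      r * lay (coord v (i + 1)) e ^ e = coord v (i + 1) ∧
      s * lay (coord v (i + 2)) f ^ f = coord v (i + 2)) :
    (F.card : ℝ) ≤ C1 * C2 * X ^ ((ε1 + τ + (∑ e ∈ Icc 1 J, p i e) + p (i + 1) e +
      p (i + 2) f + 2 * ε2) / 2) := by
  classical
  have hX0 : (0 : ℝ) < X := by linarith
  obtain ⟨α, β, hα, hβ, hco⟩ := sgn2 i
  obtain ⟨-, -, -, hinj⟩ := sgn i
  rw [mem_Icc] at he hf
  have he1 : e ∈ Icc 1 J := mem_Icc.2 ⟨by omega, he.2⟩
  have hf1 : f ∈ Icc 1 J := mem_Icc.2 ⟨by omega, hf.2⟩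
  -- the values of the coordinate `i`
  set T : Finset ℕ := F.image (fun v => coord v i) with hTdef
  have hTc : (T.card : ℝ) ≤ C1 * X ^ ε1 * X ^ (τ + ∑ e ∈ Icc 1 J, p i e) := by
    refine hT X _ T hX (Real.one_le_rpow hX ?_) ?_
    · exact add_nonneg hτ (Finset.sum_nonneg fun e _ => (hp i e).1)
    intro n hn
    obtain ⟨v, hv, rfl⟩ := Finset.mem_image.mp hn
    obtain ⟨T1, H, P, -⟩ := hF v hv
    have hpos := coord_pos T1 i
    refine ⟨hpos, CTL71.size hX T1 H i, ?_⟩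
    obtain ⟨-, -, h3, -⟩ := hL J (coord v i) hpos
    rw [h3, Nat.cast_mul, Nat.cast_prod, Real.rpow_add hX0, Real.rpow_sum_of_pos hX0]
    refine mul_le_mul (P i).1 ?_ (Finset.prod_nonneg fun e _ => Nat.cast_nonneg _) (by positivity)
    exact Finset.prod_le_prod (fun e _ => Nat.cast_nonneg _) fun e he => (P i).2 e he
  -- Cauchy-Schwarz over the value of the coordinate `i`
  have hcs1 : (F.card : ℝ) ^ 2 ≤
      (((F ×ˢ F).filter (fun z => (coord z.1 i : ℤ) = (coord z.2 i : ℤ))).card : ℝ) *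
        (T.card : ℝ) := by
    have h := cs2 F T (fun v => (coord v i : ℤ)) (fun n : ℕ => (n : ℤ))
    have h1 : F.card ≤ ((F ×ˢ T).filter
        (fun z : (ℕ × ℕ) × ℕ => (coord z.1 i : ℤ) = ((z.2 : ℕ) : ℤ))).card := by
      refine Finset.card_le_card_of_injOn (fun v => (v, coord v i)) ?_ ?_
      · intro v hv
        refine Finset.mem_coe.2 ?_
        simp only [mem_filter, mem_product]
        exact ⟨⟨Finset.mem_coe.1 hv, mem_image_of_mem _ (Finset.mem_coe.1 hv)⟩, trivial⟩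
      · intro v _ v' _ h
        exact (Prod.mk.inj h).1
    have h2 : ((T ×ˢ T).filter (fun z : ℕ × ℕ => ((z.1 : ℕ) : ℤ) = ((z.2 : ℕ) : ℤ))).card ≤
        T.card := by
      refine Finset.card_le_card_of_injOn (fun z => z.1) ?_ ?_
      · intro z hz
        have hz' := Finset.mem_coe.1 hz
        simp only [mem_filter, mem_product] at hz'
        exact Finset.mem_coe.2 hz'.1.1
      · intro z hz z' hz' h
        have h3 := Finset.mem_coe.1 hz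
        have h4 := Finset.mem_coe.1 hz'
        simp only [mem_filter, mem_product] at h3 h4
        have h5 : z.1 = z.2 := by exact_mod_cast h3.2
        have h6 : z'.1 = z'.2 := by exact_mod_cast h4.2
        have h7 : z.1 = z'.1 := h
        exact Prod.ext h7 (by rw [← h5, ← h6, h7])
    have h1' : (F.card : ℝ) ≤ (((F ×ˢ T).filter
        (fun z : (ℕ × ℕ) × ℕ => (coord z.1 i : ℤ) = ((z.2 : ℕ) : ℤ))).card : ℝ) := by
      exact_mod_cast h1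
    have h2' : (((T ×ˢ T).filter
        (fun z : ℕ × ℕ => ((z.1 : ℕ) : ℤ) = ((z.2 : ℕ) : ℤ))).card : ℝ) ≤ T.card := by
      exact_mod_cast h2
    calc (F.card : ℝ) ^ 2 ≤ (((F ×ˢ T).filter
        (fun z : (ℕ × ℕ) × ℕ => (coord z.1 i : ℤ) = ((z.2 : ℕ) : ℤ))).card : ℝ) ^ 2 :=
          pow_le_pow_left₀ (Nat.cast_nonneg _) h1' 2
      _ ≤ _ := h
      _ ≤ _ := mul_le_mul_of_nonneg_left h2' (Nat.cast_nonneg _)
  -- the collisions
  set N : ℕ := ⌊X ^ (p (i + 1) e)⌋₊ with hN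
  set M : ℕ := ⌊X ^ (p (i + 2) f)⌋₊ with hM
  have hN1 : 1 ≤ N := by
    rw [hN]; exact Nat.le_floor (by push_cast; exact Real.one_le_rpow hX (hp _ _).1)
  have hM1 : 1 ≤ M := by
    rw [hM]; exact Nat.le_floor (by push_cast; exact Real.one_le_rpow hX (hp _ _).1)
  have hN2 : (N : ℝ) ≤ X ^ (p (i + 1) e) := Nat.floor_le (by positivity)
  have hM2 : (M : ℝ) ≤ X ^ (p (i + 2) f) := Nat.floor_le (by positivity)
  set A : Finset (ℕ × ℕ) := Icc 1 N ×ˢ Icc 1 N with hA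
  set B : Finset (ℕ × ℕ) := Icc 1 M ×ˢ Icc 1 M with hB
  have hcol : ((F ×ˢ F).filter (fun z => (coord z.1 i : ℤ) = (coord z.2 i : ℤ))).card ≤
      ((A ×ˢ B).filter (fun z : (ℕ × ℕ) × (ℕ × ℕ) =>
        α * r * ((z.1.1 : ℤ) ^ e - (z.1.2 : ℤ) ^ e) =
        (-β) * s * ((z.2.1 : ℤ) ^ f - (z.2.2 : ℤ) ^ f))).card := by
    refine Finset.card_le_card_of_injOn
      (fun z => ((lay (coord z.1 (i + 1)) e, lay (coord z.2 (i + 1)) e),
        (lay (coord z.1 (i + 2)) f, lay (coord z.2 (i + 2)) f))) ?_ ?_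
    · intro z hz
      have hz' := Finset.mem_coe.1 hz
      simp only [mem_filter, mem_product] at hz'
      obtain ⟨⟨h1, h2⟩, h3⟩ := hz'
      obtain ⟨T1, -, P1, a1, b1⟩ := hF _ h1
      obtain ⟨T2, -, P2, a2, b2⟩ := hF _ h2
      refine Finset.mem_coe.2 ?_
      have hmemN : ∀ v ∈ F, lay (coord v (i + 1)) e ∈ Icc 1 N := by
        intro v hv
        obtain ⟨T3, -, P3, -, -⟩ := hF _ hv
        obtain ⟨-, -, -, -, h5⟩ := hL J (coord v (i + 1)) (coord_pos T3 _)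
        exact mem_Icc.2 ⟨(h5 e).1, Nat.le_floor ((P3 _).2 e he1)⟩
      have hmemM : ∀ v ∈ F, lay (coord v (i + 2)) f ∈ Icc 1 M := by
        intro v hv
        obtain ⟨T3, -, P3, -, -⟩ := hF _ hv
        obtain ⟨-, -, -, -, h5⟩ := hL J (coord v (i + 2)) (coord_pos T3 _)
        exact mem_Icc.2 ⟨(h5 f).1, Nat.le_floor ((P3 _).2 f hf1)⟩
      simp only [mem_filter, mem_product, hA, hB]
      refine ⟨⟨⟨hmemN _ h1, hmemN _ h2⟩, ⟨hmemM _ h1, hmemM _ h2⟩⟩, ?_⟩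
      rw [hco, hco] at h3
      have c1 : (coord z.1 (i + 1) : ℤ) = r * (lay (coord z.1 (i + 1)) e : ℤ) ^ e := by
        rw [← Nat.cast_pow, ← Nat.cast_mul, a1]
      have c2 : (coord z.2 (i + 1) : ℤ) = r * (lay (coord z.2 (i + 1)) e : ℤ) ^ e := by
        rw [← Nat.cast_pow, ← Nat.cast_mul, a2]
      have d1 : (coord z.1 (i + 2) : ℤ) = s * (lay (coord z.1 (i + 2)) f : ℤ) ^ f := by
        rw [← Nat.cast_pow, ← Nat.cast_mul, b1]
      have d2 : (coord z.2 (i + 2) : ℤ) = s * (lay (coord z.2 (i + 2)) f : ℤ) ^ f := by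
        rw [← Nat.cast_pow, ← Nat.cast_mul, b2]
      generalize (lay (coord z.1 (i + 1)) e : ℤ) = u1 at *
      generalize (lay (coord z.2 (i + 1)) e : ℤ) = u2 at *
      generalize (lay (coord z.1 (i + 2)) f : ℤ) = w1 at *
      generalize (lay (coord z.2 (i + 2)) f : ℤ) = w2 at *
      rw [c1, c2, d1, d2] at h3
      linarith
    · intro z hz z' hz' h
      have h3 := Finset.mem_coe.1 hz
      have h4 := Finset.mem_coe.1 hz'
      simp only [mem_filter, mem_product] at h3 h4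
      simp only [Prod.mk.injEq] at h
      obtain ⟨⟨e1, e2⟩, ⟨e3, e4⟩⟩ := h
      have key : ∀ v ∈ F, ∀ v' ∈ F, lay (coord v (i + 1)) e = lay (coord v' (i + 1)) e →
          lay (coord v (i + 2)) f = lay (coord v' (i + 2)) f → v = v' := by
        intro v hv v' hv' h5 h6
        obtain ⟨-, -, -, a1, b1⟩ := hF _ hv
        obtain ⟨-, -, -, a2, b2⟩ := hF _ hv'
        exact hinj v v' (by rw [← a1, ← a2, h5]) (by rw [← b1, ← b2, h6])
      exact Prod.ext (key _ h3.1.1 _ h4.1.1 e1 e3) (key _ h3.1.2 _ h4.1.2 e2 e4)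
  have hcs2 := cs2 A B (fun x => α * r * ((x.1 : ℤ) ^ e - (x.2 : ℤ) ^ e))
    (fun x => (-β) * s * ((x.1 : ℤ) ^ f - (x.2 : ℤ) ^ f))
  have hβ' : -β = 1 ∨ -β = -1 := by rcases hβ with h | h <;> simp [h]
  have hEA := ener e N r hr α hα
  have hEB := ener f M s hs (-β) hβ'
  have hEA' := hE e N he.1 he.2 hN1
  have hEB' := hE f M hf.1 hf.2 hM1
  have hpw : ∀ (n : ℕ) (q : ℝ), 1 ≤ n → 0 ≤ q → q ≤ 2 → (n : ℝ) ≤ X ^ q →
      (n : ℝ) ^ (2 + ε2) ≤ X ^ (2 * q + 2 * ε2) := by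
    intro n q hn hq0 hq2 h
    calc (n : ℝ) ^ (2 + ε2) ≤ (X ^ q) ^ (2 + ε2) :=
          Real.rpow_le_rpow (Nat.cast_nonneg _) h (by linarith)
      _ = X ^ (q * (2 + ε2)) := by rw [← Real.rpow_mul hX0.le]
      _ ≤ _ := Real.rpow_le_rpow_of_exponent_le hX (by nlinarith)
  have hA2 : (((A ×ˢ A).filter (fun z : (ℕ × ℕ) × (ℕ × ℕ) =>
      α * r * ((z.1.1 : ℤ) ^ e - (z.1.2 : ℤ) ^ e) =
        α * r * ((z.2.1 : ℤ) ^ e - (z.2.2 : ℤ) ^ e))).card : ℝ) ≤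
      C2 * X ^ (2 * p (i + 1) e + 2 * ε2) := by
    have h1 : (((A ×ˢ A).filter (fun z : (ℕ × ℕ) × (ℕ × ℕ) =>
      α * r * ((z.1.1 : ℤ) ^ e - (z.1.2 : ℤ) ^ e) =
        α * r * ((z.2.1 : ℤ) ^ e - (z.2.2 : ℤ) ^ e))).card : ℝ) ≤ C2 * (N : ℝ) ^ (2 + ε2) :=
      le_trans (by exact_mod_cast hEA) hEA'
    exact h1.trans (mul_le_mul_of_nonneg_left
      (hpw N _ hN1 (hp _ _).1 (hp _ _).2 hN2) (by linarith))
  have hB2 : (((B ×ˢ B).filter (fun z : (ℕ × ℕ) × (ℕ × ℕ) =>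
      (-β) * s * ((z.1.1 : ℤ) ^ f - (z.1.2 : ℤ) ^ f) =
        (-β) * s * ((z.2.1 : ℤ) ^ f - (z.2.2 : ℤ) ^ f))).card : ℝ) ≤
      C2 * X ^ (2 * p (i + 2) f + 2 * ε2) := by
    have h1 : (((B ×ˢ B).filter (fun z : (ℕ × ℕ) × (ℕ × ℕ) =>
      (-β) * s * ((z.1.1 : ℤ) ^ f - (z.1.2 : ℤ) ^ f) =
        (-β) * s * ((z.2.1 : ℤ) ^ f - (z.2.2 : ℤ) ^ f))).card : ℝ) ≤ C2 * (M : ℝ) ^ (2 + ε2) :=
      le_trans (by exact_mod_cast hEB) hEB'
    exact h1.trans (mul_le_mul_of_nonneg_left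
      (hpw M _ hM1 (hp _ _).1 (hp _ _).2 hM2) (by linarith))
  have hcolR : (((F ×ˢ F).filter
      (fun z => (coord z.1 i : ℤ) = (coord z.2 i : ℤ))).card : ℝ) ≤
      C2 * X ^ (p (i + 1) e + p (i + 2) f + 2 * ε2) := by
    have h1 : (((F ×ˢ F).filter
      (fun z => (coord z.1 i : ℤ) = (coord z.2 i : ℤ))).card : ℝ) ^ 2 ≤
      (C2 * X ^ (p (i + 1) e + p (i + 2) f + 2 * ε2)) ^ 2 := by
      calc (((F ×ˢ F).filter
          (fun z => (coord z.1 i : ℤ) = (coord z.2 i : ℤ))).card : ℝ) ^ 2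
          ≤ (((A ×ˢ B).filter (fun z : (ℕ × ℕ) × (ℕ × ℕ) =>
            α * r * ((z.1.1 : ℤ) ^ e - (z.1.2 : ℤ) ^ e) =
            (-β) * s * ((z.2.1 : ℤ) ^ f - (z.2.2 : ℤ) ^ f))).card : ℝ) ^ 2 :=
            pow_le_pow_left₀ (Nat.cast_nonneg _) (by exact_mod_cast hcol) 2
        _ ≤ _ := hcs2
        _ ≤ (C2 * X ^ (2 * p (i + 1) e + 2 * ε2)) * (C2 * X ^ (2 * p (i + 2) f + 2 * ε2)) :=
            mul_le_mul hA2 hB2 (Nat.cast_nonneg _) (by positivity)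
        _ = _ := by
            rw [mul_pow, ← Real.rpow_natCast (X ^ _) 2, ← Real.rpow_mul hX0.le]
            rw [mul_mul_mul_comm, ← Real.rpow_add hX0, sq]
            congr 2
            push_cast
            ring
    exact (pow_le_pow_iff_left₀ (Nat.cast_nonneg _) (by positivity) (by norm_num)).1 h1
  have hfin : (F.card : ℝ) ^ 2 ≤ (C1 * C2 * X ^ ((ε1 + τ + (∑ e ∈ Icc 1 J, p i e) +
      p (i + 1) e + p (i + 2) f + 2 * ε2) / 2)) ^ 2 := by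
    calc (F.card : ℝ) ^ 2 ≤ _ := hcs1
      _ ≤ (C2 * X ^ (p (i + 1) e + p (i + 2) f + 2 * ε2)) *
          (C1 * X ^ ε1 * X ^ (τ + ∑ e ∈ Icc 1 J, p i e)) :=
          mul_le_mul hcolR hTc (Nat.cast_nonneg _) (by positivity)
      _ = C1 * C2 * X ^ (ε1 + τ + (∑ e ∈ Icc 1 J, p i e) + p (i + 1) e + p (i + 2) f +
          2 * ε2) := by
          have key : ∀ a b c : ℝ, C2 * X ^ a * (C1 * X ^ b * X ^ c) =
              C1 * C2 * X ^ (a + b + c) := by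
            intro a b c
            rw [Real.rpow_add hX0, Real.rpow_add hX0]
            ring
          rw [key]
          congr 2
          ring
      _ ≤ (C1 * C2) ^ 2 * X ^ (ε1 + τ + (∑ e ∈ Icc 1 J, p i e) + p (i + 1) e + p (i + 2) f +
          2 * ε2) := by
          refine mul_le_mul_of_nonneg_right ?_ (by positivity)
          have h1 : 1 ≤ C1 * C2 := one_le_mul_of_one_le_of_one_le hC1 hC2
          nlinarith
      _ = _ := by
          have hsq : ∀ q : ℝ, (X ^ (q / 2)) ^ 2 = X ^ q := by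
            intro q
            rw [← Real.rpow_natCast (X ^ _) 2, ← Real.rpow_mul hX0.le]
            congr 1
            push_cast
            ring
          rw [mul_pow (C1 * C2) _ 2, hsq]
  have hC0 : 0 ≤ C1 * C2 := by positivity
  exact (pow_le_pow_iff_left₀ (Nat.cast_nonneg _) (by positivity) (by norm_num)).1 hfin

theorem core (h1 : S_AEN) (h2 : S_LAY) (h3 : Pool.RIC.S_CNT) (J : ℕ) (κ ε : ℝ) (hκ : 1 ≤ κ)
    (hε : 0 < ε) : ∃ C : ℝ, 1 ≤ C ∧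
    ∀ (X τ : ℝ) (F : Finset (ℕ × ℕ)) (i : Fin 3) (e f : ℕ) (p : Fin 3 → ℕ → ℝ),
    1 ≤ X → 0 ≤ τ → e ∈ Icc 2 J → f ∈ Icc 2 J →
    (∀ l e, 0 ≤ p l e ∧ p l e ≤ 2) →
    (∀ v ∈ F, IsTri v ∧ hh v ≤ κ * Real.log X ∧ ∀ l, Prof J X τ (p l) (coord v l)) →
    (F.card : ℝ) ≤ C * X ^ (ε + 4 * τ + (∑ e ∈ Icc 1 J, p i e) / 2 +
      (∑ e ∈ Icc 1 J, p (i + 1) e - p (i + 1) e / 2) +
      (∑ e ∈ Icc 1 J, p (i + 2) e - p (i + 2) f / 2)) := by
  classical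
  obtain ⟨C1, hC1, hT⟩ := h3 κ (ε / 8) (by linarith) (by linarith)
  obtain ⟨C2, hC2, hE⟩ := h1 J (ε / 4) (by linarith)
  refine ⟨C1 * C1 * (C1 * C2), one_le_mul_of_one_le_of_one_le
    (one_le_mul_of_one_le_of_one_le hC1 hC1) (one_le_mul_of_one_le_of_one_le hC1 hC2), ?_⟩
  intro X τ F i e f p hX hτ he hf hp hF
  have hX0 : (0 : ℝ) < X := by linarith
  have he' := mem_Icc.1 he
  have hf' := mem_Icc.1 hf
  have he1 : e ∈ Icc 1 J := mem_Icc.2 ⟨by omega, he'.2⟩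
  have hf1 : f ∈ Icc 1 J := mem_Icc.2 ⟨by omega, hf'.2⟩
  -- cofactors
  have hcof : ∀ (l : Fin 3) (g : ℕ), g ∈ Icc 1 J →
      ((F.image (fun v => kp J ((Icc 1 J).erase g) (coord v l))).card : ℝ) ≤
      C1 * X ^ (ε / 8) * X ^ (τ + (∑ e ∈ Icc 1 J, p l e - p l g)) := by
    intro l g hg
    have hsum : ∑ e ∈ (Icc 1 J).erase g, p l e = ∑ e ∈ Icc 1 J, p l e - p l g := by
      rw [← Finset.add_sum_erase _ _ hg]
      ring
    rw [← hsum]
    refine hT X _ _ hX (Real.one_le_rpow hX ?_) ?_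
    · exact add_nonneg hτ (Finset.sum_nonneg fun e _ => (hp l e).1)
    intro n hn
    obtain ⟨v, hv, rfl⟩ := Finset.mem_image.mp hn
    obtain ⟨T1, H, P⟩ := hF v hv
    have hpos := coord_pos T1 l
    obtain ⟨-, -, -, hd, -⟩ := h2 J (coord v l) hpos
    obtain ⟨hd1, hd2⟩ := hd ((Icc 1 J).erase g) (Finset.erase_subset _ _)
    have hle : kp J ((Icc 1 J).erase g) (coord v l) ≤ coord v l := Nat.le_of_dvd hpos hd1
    refine ⟨Nat.pos_of_dvd_of_pos hd1 hpos, ?_, ?_⟩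
    · exact le_trans (by exact_mod_cast hle) (CTL71.size hX T1 H l)
    · rw [hd2, Nat.cast_mul, Nat.cast_prod, Real.rpow_add hX0, Real.rpow_sum_of_pos hX0]
      refine mul_le_mul (P l).1 ?_ (Finset.prod_nonneg fun e _ => Nat.cast_nonneg _)
        (by positivity)
      exact Finset.prod_le_prod (fun e _ => Nat.cast_nonneg _)
        fun e he => (P l).2 e (Finset.mem_of_mem_erase he)
  set R : Finset ℕ := F.image (fun v => kp J ((Icc 1 J).erase e) (coord v (i + 1))) with hR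
  set S : Finset ℕ := F.image (fun v => kp J ((Icc 1 J).erase f) (coord v (i + 2))) with hS
  have hRc := hcof (i + 1) e he1
  have hSc := hcof (i + 2) f hf1
  have hmaps : Set.MapsTo (fun v => (kp J ((Icc 1 J).erase e) (coord v (i + 1)),
      kp J ((Icc 1 J).erase f) (coord v (i + 2)))) (F : Set (ℕ × ℕ))
      ((R ×ˢ S : Finset (ℕ × ℕ)) : Set (ℕ × ℕ)) := by
    intro v hv
    exact Finset.mem_coe.2 (Finset.mem_product.2
      ⟨Finset.mem_image_of_mem _ (Finset.mem_coe.1 hv),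
        Finset.mem_image_of_mem _ (Finset.mem_coe.1 hv)⟩)
  set b : ℝ := C1 * C2 * X ^ ((ε / 8 + τ + (∑ e ∈ Icc 1 J, p i e) + p (i + 1) e +
      p (i + 2) f + 2 * (ε / 4)) / 2) with hb
  have hC120 : 0 ≤ C1 * C2 := by positivity
  have hb0 : 0 ≤ b := by rw [hb]; positivity
  have hfib : ∀ q ∈ R ×ˢ S, (((F.filter (fun v => (kp J ((Icc 1 J).erase e) (coord v (i + 1)),
      kp J ((Icc 1 J).erase f) (coord v (i + 2))) = q)).card : ℕ) : ℝ) ≤ b := by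
    rintro ⟨r, s⟩ -
    by_cases hne : (F.filter (fun v => (kp J ((Icc 1 J).erase e) (coord v (i + 1)),
      kp J ((Icc 1 J).erase f) (coord v (i + 2))) = (r, s))).Nonempty
    swap
    · rw [Finset.not_nonempty_iff_eq_empty.1 hne]
      simpa using hb0
    obtain ⟨v0, hv0⟩ := hne
    simp only [mem_filter, Prod.mk.injEq] at hv0
    obtain ⟨hv0, hr0, hs0⟩ := hv0
    obtain ⟨T0, -, -⟩ := hF v0 hv0
    have hrpos : 0 < r := by
      obtain ⟨-, -, -, hd, -⟩ := h2 J (coord v0 (i + 1)) (coord_pos T0 _)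
      rw [← hr0]
      exact Nat.pos_of_dvd_of_pos (hd _ (Finset.erase_subset _ _)).1 (coord_pos T0 _)
    have hspos : 0 < s := by
      obtain ⟨-, -, -, hd, -⟩ := h2 J (coord v0 (i + 2)) (coord_pos T0 _)
      rw [← hs0]
      exact Nat.pos_of_dvd_of_pos (hd _ (Finset.erase_subset _ _)).1 (coord_pos T0 _)
    refine fibrs hC1 hC2 (by linarith) h2 hT hE hX hτ i he hf p hp r s hrpos hspos _ ?_
    intro v hv
    simp only [mem_filter, Prod.mk.injEq] at hv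
    obtain ⟨hv, hr1, hs1⟩ := hv
    obtain ⟨T1, H, P⟩ := hF v hv
    refine ⟨T1, H, P, ?_, ?_⟩
    · obtain ⟨-, -, -, -, h5⟩ := h2 J (coord v (i + 1)) (coord_pos T1 _)
      rw [← hr1]
      exact (h5 e).2.2.2 he1
    · obtain ⟨-, -, -, -, h5⟩ := h2 J (coord v (i + 2)) (coord_pos T1 _)
      rw [← hs1]
      exact (h5 f).2.2.2 hf1
  have hsum : (F.card : ℝ) ≤ (R.card * S.card) * b := by
    rw [Finset.card_eq_sum_card_fiberwise hmaps]
    push_cast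
    calc ∑ q ∈ R ×ˢ S, ((F.filter (fun v => (kp J ((Icc 1 J).erase e) (coord v (i + 1)),
          kp J ((Icc 1 J).erase f) (coord v (i + 2))) = q)).card : ℝ)
        ≤ ∑ _q ∈ R ×ˢ S, b := Finset.sum_le_sum hfib
      _ = _ := by rw [Finset.sum_const, nsmul_eq_mul, Finset.card_product, Nat.cast_mul]
  refine hsum.trans ((mul_le_mul_of_nonneg_right (mul_le_mul hRc hSc (Nat.cast_nonneg _)
    (by positivity)) hb0).trans ?_)
  have key : ∀ a b c d g : ℝ, C1 * X ^ a * X ^ b * (C1 * X ^ c * X ^ d) *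
      (C1 * C2 * X ^ g) = C1 * C1 * (C1 * C2) * X ^ (a + b + c + d + g) := by
    intro a b c d g
    rw [Real.rpow_add hX0, Real.rpow_add hX0, Real.rpow_add hX0, Real.rpow_add hX0]
    ring
  rw [hb, key]
  refine mul_le_mul_of_nonneg_left (Real.rpow_le_rpow_of_exponent_le hX ?_) (by positivity)
  linarith

end FTL14

open FTL14

theorem ftl_thm (h1 : S_AEN) (h2 : S_LAY) (h3 : Pool.RIC.S_CNT) : S_FTL := by
  intro J κ ε hκ hε
  obtain ⟨C, hC, hc⟩ := core h1 h2 h3 J κ ε hκ hε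
  refine ⟨C, hC, ?_⟩
  intro X τ F i j k e f p hX hτ hij hik hjk he hf hp hF
  have hall : ∀ i j k : Fin 3, i ≠ j → i ≠ k → j ≠ k →
      (j = i + 1 ∧ k = i + 2) ∨ (j = i + 2 ∧ k = i + 1) := by decide
  have hcase := hall i j k hij hik hjk
  rcases hcase with ⟨rfl, rfl⟩ | ⟨rfl, rfl⟩
  · exact hc X τ F i e f p hX hτ he hf hp hF
  · have h := hc X τ F i f e p hX hτ hf he hp hF
    refine h.trans (le_of_eq ?_)
    congr 2
    ring

end Pool.BL
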